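import Pool.Agent.Helper27.UC.Goals6

set_option autoImplicit false

noncomputable section

namespace Pool.Agent.Helper36.UC.EMP1

open Pool.Agent.Helper27.UC

lemma sum2 (C : Multiset ℕ) : (C.map (fun v => 2 * v)).sum = 2 * C.sum := by
  induction C using Multiset.induction_on with
  | empty => simp
  | cons a C ih => rw [Multiset.map_cons, Multiset.sum_cons, Multiset.sum_cons, ih]; ring

lemma sum21 (C : Multiset ℕ) :
    (C.map (fun v => 2 * v + 1)).sum = 2 * C.sum + Multiset.card C := by
  induction C using Multiset.induction_on with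
  | empty => simp
  | cons a C ih =>
    rw [Multiset.map_cons, Multiset.sum_cons, Multiset.sum_cons, Multiset.card_cons, ih]; ring

theorem t (hEMG : S_EMG) (hEMN : S_EMN) : S_EMP1 := by
  intro n m b q d N g l hN hl1 hl2 hd A B u hu
  have hN' := hN
  obtain ⟨hcard, hmem, hq, h10, hqn, hbn, hnm⟩ := hN'
  -- cardinalities
  obtain ⟨j, hj⟩ : ∃ j, j = Multiset.card g := ⟨_, rfl⟩
  obtain ⟨s, hs⟩ : ∃ s, s = Multiset.card l := ⟨_, rfl⟩
  rw [← hs] at hl1 hl2
  have hn4 : n = 4 * j + s := by
    rw [← hcard, hj, hs]; simp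
  have hmain := hEMN n m b q d j s (4 • g + l) hN hn4 hl1 hd
  -- sizes
  have hs4 : 10000 ≤ s := by
    by_contra h
    push Not at h
    have : s ^ 2 ≤ 9999 ^ 2 := Nat.pow_le_pow_left (by omega) 2
    omega
  have hsn : 5 * s ≤ n := by
    have : s * 10000 ≤ s * s := Nat.mul_le_mul_left s hs4
    nlinarith
  have hj5 : n ≤ 5 * j := by omega
  have hjn : j ≤ n := by omega
  -- u, A, B
  have hcg : Multiset.card A + Multiset.card B + 1 = j := by
    rw [hj, ← hu]; simp
  have hug : ∀ v ∈ g, v ≤ m ∧ m ≤ v + b := by
    intro v hv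
    apply hmem v
    rw [Multiset.mem_add]
    left
    rw [Multiset.mem_nsmul]
    exact ⟨by norm_num, hv⟩
  have hu1 : u ≤ m ∧ m ≤ u + b := hug u (by rw [← hu]; exact Multiset.mem_cons_self _ _)
  have hB : ∀ v ∈ B, v ≤ m ∧ m ≤ v + b := fun v hv =>
    hug v (by rw [← hu]; exact Multiset.mem_cons_of_mem (Multiset.mem_add.2 (Or.inr hv)))
  have hn2 : n ^ 2 < m := by
    have h1 : n ^ 2 < n ^ 5 := Nat.pow_lt_pow_right (by omega) (by norm_num)
    omega
  have hbm : b < m := by
    have : n ≤ n ^ 2 := by nlinarith
    omega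
  have hupos : 0 < u := by omega
  obtain ⟨p, hp⟩ : ∃ p, p = (N + B.sum) / u := ⟨_, rfl⟩
  have hBsum : Multiset.card B * m ≤ B.sum + Multiset.card B * b := by
    have : ∀ (C : Multiset ℕ), (∀ v ∈ C, v ≤ m ∧ m ≤ v + b) →
        Multiset.card C * m ≤ C.sum + Multiset.card C * b := by
      intro C
      induction C using Multiset.induction_on with
      | empty => intro _; simp
      | cons a C ih =>
        intro h
        have h1 := ih fun v hv => h v (Multiset.mem_cons_of_mem hv)
        have h2 := (h a (Multiset.mem_cons_self _ _)).2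
        rw [Multiset.card_cons, Multiset.sum_cons]
        nlinarith
    exact this B hB
  have hup : B.sum < u * (p + 1) := by
    have h1 := Nat.lt_mul_div_succ (N + B.sum) hupos
    rw [← hp] at h1
    omega
  have hcb : Multiset.card B * b < m := by
    have h1 : Multiset.card B * b ≤ n * n := Nat.mul_le_mul (by omega) (by omega)
    nlinarith
  have hp1 : Multiset.card B ≤ p + 1 := by
    by_contra h
    push Not at h
    have h1 : u * (p + 1) ≤ m * (p + 1) := Nat.mul_le_mul_right _ hu1.1
    have h2 : m * (p + 1) + m ≤ Multiset.card B * m := by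
      have : (p + 1 + 1) * m ≤ Multiset.card B * m := Nat.mul_le_mul_right _ h
      nlinarith
    omega
  rw [← hp]
  -- the tagged multiset
  obtain ⟨G, hG⟩ : ∃ G : Multiset ℕ, G = (2 * u + 1 + p) ::ₘ
      (A.map (fun v => 2 * v + 1) + B.map (fun v => 2 * v)) := ⟨_, rfl⟩
  have hGl : (2 * u + 1 + p) ::ₘ
      (A.map (fun v => 2 * v + 1) + B.map (fun v => 2 * v) + l) = G + l := by
    rw [hG, Multiset.cons_add]
  rw [hGl]
  have hGc : Multiset.card G = j := by
    rw [hG, ← hcg]; simp
  have hGs : 2 * G.sum + l.sum + 6 ≥ (4 • g + l).sum + 2 * j := by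
    have e1 : G.sum = 2 * u + 1 + p + ((2 * A.sum + Multiset.card A) + 2 * B.sum) := by
      rw [hG, Multiset.sum_cons, Multiset.sum_add, sum2, sum21]
    have e2 : (4 • g + l).sum = 4 * (u + (A.sum + B.sum)) + l.sum := by
      rw [← hu, Multiset.sum_add, Multiset.sum_nsmul, Multiset.sum_cons, Multiset.sum_add,
        smul_eq_mul]
    rw [e1, e2]
    omega
  have hTm : ((G.map fun x => (true, x)) + (l.map fun x => (false, x))).map Prod.snd = G + l := by
    simp [Multiset.map_map]
  rw [← hTm]
  refine hEMG Bool d 10 n Finset.univ (fun c => if c then 2 else 1) (fun c => if c then j else s)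
    ((G.map fun x => (true, x)) + (l.map fun x => (false, x))) Finset.univ_nonempty
    (fun p _ => Finset.mem_univ _) ?_ (by norm_num) (by simp) ?_ ?_ ?_
  · intro i _
    rcases i with _ | _
    · rw [Multiset.filter_add, Multiset.card_add, Multiset.filter_map, Multiset.filter_map]
      simp [hs]
    · rw [Multiset.filter_add, Multiset.card_add, Multiset.filter_map, Multiset.filter_map]
      simp [hGc]
  · intro i _
    rcases i with _ | _
    · refine ⟨by simp, by simp; omega, by simp; omega, ?_⟩
      simp only [Bool.false_eq_true, if_false]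
      nlinarith
    · refine ⟨by simp, by simp; omega, by simp; omega, ?_⟩
      simp only [if_true]
      nlinarith
  · simp
    omega
  · refine lt_of_lt_of_le hmain ?_
    apply Nat.pow_le_pow_left
    have e3 : (G.map ((fun p : Bool × ℕ => (if p.1 then 2 else 1) * p.2) ∘ fun x => (true, x))).sum
        = 2 * G.sum := by
      rw [← sum2]
      simp
    have e4 : (l.map ((fun p : Bool × ℕ => (if p.1 then 2 else 1) * p.2) ∘ fun x => (false, x))).sum
        = l.sum := by
      simp
    have e5 : (((G.map fun x => (true, x)) + (l.map fun x => (false, x))).map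
        (fun p : Bool × ℕ => (if p.1 then 2 else 1) * p.2)).sum = 2 * G.sum + l.sum := by
      rw [Multiset.map_add, Multiset.sum_add, Multiset.map_map, Multiset.map_map, e3, e4]
    rw [e5]
    omega

end Pool.Agent.Helper36.UC.EMP1
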