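import Pool.Agent.Helper27.UC.Goals

/-!
PROJECT UC, packet G1M: the goals `S_G1M` and `S_G2M` from `S_G1F`, `S_G2F`, `S_GEN`.
-/

set_option autoImplicit false

noncomputable section

namespace Pool.Agent.Helper36.UC.G1M

open Module Pool.Agent.Helper97.Tate Pool.Agent.Helper27.UC

/-- a position gives an upper bound for the generic dimension -/
theorem gd_le {d : ℕ} {l : Multiset ℕ} (L : Multiset ((Fin 3 → ℂ) × ℕ)) (h : L.map Prod.snd = l) :
    gd d l ≤ finrank ℂ (spc d L) :=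
  Nat.sInf_le ⟨L, h, le_rfl⟩

/-- membership in `spc` -/
theorem mem_spc {K : Type} [Field K] {d : ℕ} {L : Multiset ((Fin 3 → K) × ℕ)}
    {z : MvPolynomial (Fin 3) K} :
    z ∈ spc d L ↔ z ∈ Fm K d ∧ ∀ p ∈ L, z ∈ Van p.1 p.2 := by
  unfold spc
  rw [Submodule.mem_inf, Submodule.mem_iInf]
  refine and_congr_right fun _ => forall_congr' fun p => ?_
  rw [Submodule.mem_iInf]

/-- one more point -/
theorem spc_cons {K : Type} [Field K] (d k : ℕ) (P : Fin 3 → K) (L : Multiset ((Fin 3 → K) × ℕ)) :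
    spc d ((P, k) ::ₘ L) = spc d L ⊓ Van P k := by
  ext z
  rw [Submodule.mem_inf, mem_spc, mem_spc]
  constructor
  · rintro ⟨h1, h2⟩
    exact ⟨⟨h1, fun p hp => h2 p (Multiset.mem_cons_of_mem hp)⟩, h2 (P, k) (Multiset.mem_cons_self _ _)⟩
  · rintro ⟨⟨h1, h2⟩, h3⟩
    refine ⟨h1, fun p hp => ?_⟩
    rcases Multiset.mem_cons.1 hp with h | h
    · rw [h]
      exact h3
    · exact h2 p h

/-- four more points -/
theorem spc_four {K : Type} [Field K] (d m : ℕ) (Q : Fin 4 → Fin 3 → K)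
    (L : Multiset ((Fin 3 → K) × ℕ)) :
    spc d ((Finset.univ : Finset (Fin 4)).val.map (fun i => (Q i, m)) + L) =
      spc d L ⊓ ⨅ l, Van (Q l) m := by
  ext z
  rw [Submodule.mem_inf, mem_spc, mem_spc, Submodule.mem_iInf]
  constructor
  · rintro ⟨h1, h2⟩
    refine ⟨⟨h1, fun p hp => h2 p (Multiset.mem_add.2 (Or.inr hp))⟩, fun l => ?_⟩
    exact h2 (Q l, m) (Multiset.mem_add.2 (Or.inl (Multiset.mem_map.2 ⟨l, Finset.mem_univ l, rfl⟩)))
  · rintro ⟨⟨h1, h2⟩, h3⟩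
    refine ⟨h1, fun p hp => ?_⟩
    rcases Multiset.mem_add.1 hp with h | h
    · obtain ⟨l, _, rfl⟩ := Multiset.mem_map.1 h
      exact h3 l
    · exact h2 p h

/-- the multiset of the multiplicities of the four points -/
theorem map_four {K : Type} (m : ℕ) (Q : Fin 4 → Fin 3 → K) (L : Multiset ((Fin 3 → K) × ℕ)) :
    ((Finset.univ : Finset (Fin 4)).val.map (fun i => (Q i, m)) + L).map Prod.snd =
      rp 4 m + L.map Prod.snd := by
  rw [Multiset.map_add, Multiset.map_map]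
  congr 1

/-- G1M from G1F and GEN -/
theorem t (h1 : S_G1F) (h2 : S_GEN) : S_G1M := by
  intro d m N l hA hB
  obtain ⟨L, a, b, hL, hT⟩ := h2 d l {2 * m, 2 * m + 1}
  have e0 := hT (2 * m) (by simp)
  have e1 := hT (2 * m + 1) (by simp)
  obtain ⟨Q, hQ⟩ := h1 ℂ d (spc d L) a b m N inf_le_left (e1.trans hA) (e0.trans hB)
  rw [← spc_four] at hQ
  refine (gd_le _ ?_).trans hQ
  rw [map_four, hL]

/-- G2M from G2F and GEN -/
theorem t2 (h1 : S_G2F) (h2 : S_GEN) : S_G2M := by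
  intro d t l hA
  obtain ⟨L, a, b, hL, hT⟩ := h2 d l {t, t + 1, t + 2}
  have e0 := hT t (by simp)
  have e1 := hT (t + 1) (by simp)
  have e2 := hT (t + 2) (by simp)
  have key : ∀ (a' b' : ℂ) (k : ℕ), gd d (k ::ₘ l) ≤
      finrank ℂ (spc d L ⊓ Van ![a', b', 1] k : Submodule ℂ (MvPolynomial (Fin 3) ℂ)) := by
    intro a' b' k
    rw [← spc_cons]
    refine gd_le _ ?_
    rw [Multiset.map_cons, hL]
  have f1 := key a b (t + 1)
  have h3 := h1 ℂ d (spc d L) a b t inf_le_left (fun a' b' => e1.trans (key a' b' (t + 1)))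
    (by omega)
  omega

end Pool.Agent.Helper36.UC.G1M
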