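import Pool.Agent.Helper27.UC.Goals8

set_option autoImplicit false

noncomputable section

namespace Pool.Agent.Helper36.UC.LEV2

open Pool.Agent.Helper27.UC

lemma sum2 (C : Multiset ℕ) : (C.map (fun v => 2 * v)).sum = 2 * C.sum := by
  induction C using Multiset.induction_on with
  | empty => simp
  | cons a C ih => rw [Multiset.map_cons, Multiset.sum_cons, Multiset.sum_cons, ih]; ring

lemma sumX (C : Multiset ℕ) : (C.map (fun v => 4 * v * (4 * v + 1))).sum =
    16 * (C.map fun v => v ^ 2).sum + 4 * C.sum := by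
  induction C using Multiset.induction_on with
  | empty => simp
  | cons a C ih =>
    rw [Multiset.map_cons, Multiset.map_cons, Multiset.sum_cons, Multiset.sum_cons,
      Multiset.sum_cons, ih]
    ring

lemma sumY (C : Multiset ℕ) : (C.map (fun v => 4 * v * (4 * v))).sum =
    16 * (C.map fun v => v ^ 2).sum := by
  induction C using Multiset.induction_on with
  | empty => simp
  | cons a C ih =>
    rw [Multiset.map_cons, Multiset.map_cons, Multiset.sum_cons, Multiset.sum_cons, ih]
    ring

lemma sumL (C : Multiset ℕ) : (C.map (fun v => 2 * v * (2 * v))).sum =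
    4 * (C.map fun v => v ^ 2).sum := by
  induction C using Multiset.induction_on with
  | empty => simp
  | cons a C ih =>
    rw [Multiset.map_cons, Multiset.map_cons, Multiset.sum_cons, Multiset.sum_cons, ih]
    ring

lemma sumP (P : Multiset (ℕ × ℕ)) (h : ∀ p ∈ P, p.2 ≤ p.1) :
    (P.map fun p => p.2 ^ 2).sum ≤ (P.map fun p => p.1 * p.2).sum := by
  induction P using Multiset.induction_on with
  | empty => simp
  | cons a C ih =>
    rw [Multiset.map_cons, Multiset.map_cons, Multiset.sum_cons, Multiset.sum_cons]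
    have h1 := ih fun p hp => h p (Multiset.mem_cons_of_mem hp)
    have h2 := h a (Multiset.mem_cons_self _ _)
    have h3 : a.2 ^ 2 ≤ a.1 * a.2 := by
      rw [pow_two]; exact Nat.mul_le_mul_right _ h2
    omega

theorem t (hG3 : S_GLUE3) (hRG : S_RG3) (hEM : S_EM3) (hHEB : S_HEB) (hPULL : S_PULL) :
    S_LEV2 := by
  intro c Q M d N h l P hHE hCR hch
  obtain ⟨-, -, b3, b4, b5, -, -⟩ := hHEB c Q M h l P hHE
  have hHE' : HE c Q M h l P := hHE
  obtain ⟨hc, hQ, hM, hh, hl, hP, -, -, -, hM0, m1, m2, m3⟩ := hHE
  have e0 : (4 • h + l).map (fun v => 2 * v) + P.map Prod.snd =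
      4 • (h.map (fun v => 2 * v)) + (l.map (fun v => 2 * v) + P.map Prod.snd) := by
    rw [Multiset.map_add, Multiset.map_nsmul, add_assoc]
  have e1 : (4 • h + l).sum = 4 * h.sum + l.sum := by
    rw [Multiset.sum_add, Multiset.sum_nsmul, smul_eq_mul]
  rw [e0, e1]
  refine hG3 d _ _ _ ?_ ?_ ?_
  · intro v hv
    obtain ⟨w, hw, rfl⟩ := Multiset.mem_map.1 hv
    have h1 := (hh w hw).1
    omega
  · have h1 := hRG c Q M d N h l P hHE' hCR hch
    rw [Multiset.map_map, sum2, ← add_assoc]
    have e2 : h.map ((fun v => 2 * v) ∘ fun v => 2 * v) = h.map (fun v => 4 * v) := by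
      apply Multiset.map_congr rfl
      intro v _
      simp only [Function.comp_apply]
      ring
    rw [e2]
    omega
  · intro A B u hu
    obtain ⟨x, Xs, Ys, hx, hfx, hXA, hYB⟩ := hPULL ℕ (fun v => 2 * v) h u A B hu
    subst hfx
    obtain ⟨q, hq⟩ : ∃ q, q = (N + (4 * h.sum + l.sum) + 2 * Ys.sum) / (2 * x) := ⟨_, rfl⟩
    have hxh : x ∈ h := by rw [← hx]; exact Multiset.mem_cons_self _ _
    have hx0 : 0 < x := by
      have h1 := (hh x hxh).1
      omega
    have hxm : 10 ^ 4 * x ≤ M := b5 x hxh
    have hsum : h.sum = x + (Xs.sum + Ys.sum) := by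
      rw [← hx, Multiset.sum_cons, Multiset.sum_add]
    have hq1 : N + (4 * h.sum + l.sum) + 2 * Ys.sum < 2 * x * (q + 1) := by
      rw [hq]
      exact Nat.lt_mul_div_succ _ (by omega)
    rw [← hYB, sum2, ← hq]
    have key := hEM c Q M d h l P
      ((x, 4 * x + 1 + q) ::ₘ (Xs.map (fun v => (v, 4 * v + 1)) + Ys.map (fun v => (v, 4 * v))))
      (l.map fun v => (v, 2 * v)) hHE' hCR.1 ?_ ?_ ?_
    · have e3 : (2 * (2 * x) + 1 + q) ::ₘ (A.map (fun v => 2 * v + 1) +
          (Ys.map (fun v => 2 * v)).map (fun v => 2 * v) +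
            (l.map (fun v => 2 * v) + P.map Prod.snd)) =
          ((x, 4 * x + 1 + q) ::ₘ (Xs.map (fun v => (v, 4 * v + 1)) +
            Ys.map (fun v => (v, 4 * v)))).map Prod.snd + (l.map fun v => (v, 2 * v)).map Prod.snd +
            P.map Prod.snd := by
        rw [Multiset.map_cons, Multiset.map_add, Multiset.map_map, Multiset.map_map,
          Multiset.map_map, Multiset.map_map, ← hXA, Multiset.map_map]
        have e4 : Xs.map ((fun v => 2 * v + 1) ∘ fun v => 2 * v) =
            Xs.map (Prod.snd ∘ fun v => (v, 4 * v + 1)) := by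
          apply Multiset.map_congr rfl
          intro v _
          simp only [Function.comp_apply]
          ring
        have e5 : Ys.map ((fun v => 2 * v) ∘ fun v => 2 * v) =
            Ys.map (Prod.snd ∘ fun v => (v, 4 * v)) := by
          apply Multiset.map_congr rfl
          intro v _
          simp only [Function.comp_apply]
          ring
        have e6 : l.map (fun v => 2 * v) = l.map (Prod.snd ∘ fun v => (v, 2 * v)) := rfl
        have e7 : 2 * (2 * x) + 1 + q = 4 * x + 1 + q := by ring
        rw [e4, e5, ← e6, e7, Multiset.cons_add, Multiset.cons_add]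
        congr 1
        exact (add_assoc _ _ _).symm
      rw [e3]
      exact key
    · rw [Multiset.map_cons, Multiset.map_add, Multiset.map_map, Multiset.map_map]
      simp only [Function.comp_def, Multiset.map_id']
      exact hx
    · rw [Multiset.map_map]
      simp only [Function.comp_def, Multiset.map_id']
    · -- the weight
      have w1 : wt ((x, 4 * x + 1 + q) ::ₘ (Xs.map (fun v => (v, 4 * v + 1)) +
          Ys.map (fun v => (v, 4 * v)))) (l.map fun v => (v, 2 * v)) P =
          4 * x * (4 * x + 1 + q) + (16 * (Xs.map fun v => v ^ 2).sum + 4 * Xs.sum +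
            16 * (Ys.map fun v => v ^ 2).sum) + 4 * (l.map fun v => v ^ 2).sum +
            (P.map fun p => p.1 * p.2).sum := by
        unfold wt
        rw [Multiset.map_cons, Multiset.sum_cons, Multiset.map_add, Multiset.sum_add,
          Multiset.map_map, Multiset.map_map, Multiset.map_map, ← sumX, ← sumY, ← sumL]
        rfl
      have w2 : (h.map fun v => v ^ 2).sum =
          x ^ 2 + ((Xs.map fun v => v ^ 2).sum + (Ys.map fun v => v ^ 2).sum) := by
        rw [← hx, Multiset.map_cons, Multiset.sum_cons, Multiset.map_add, Multiset.sum_add]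
      have w3 := sumP P fun p hp => (hP p hp).2.1
      have w4 : 4 * x * (4 * x + 1 + q) = 16 * x ^ 2 + 2 * (2 * x * (q + 1)) := by ring
      have w6 : Q = 16 * (h.map fun v => v ^ 2).sum + 4 * (l.map fun v => v ^ 2).sum +
          (P.map fun p => p.2 ^ 2).sum := hQ
      rw [w2] at w6
      rw [w1, w4]
      omega

end Pool.Agent.Helper36.UC.LEV2
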